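import Pool.Agent.Helper74.UB.Goals1

set_option autoImplicit false

namespace Pool.Agent.Helper82.UB

open Finset Equiv Helper28.VF Pool.Agent.Helper74.UB
open scoped Classical

/-- A change from false to true. -/
theorem change_up (P : ℕ → Prop) (a b : ℕ) (hab : a ≤ b) (ha : ¬ P a) (hb : P b) :
    ∃ i, a ≤ i ∧ i < b ∧ ¬ P i ∧ P (i + 1) := by
  induction b, hab using Nat.le_induction with
  | base => exact absurd hb ha
  | succ b hab ih =>
    by_cases h : P b
    · obtain ⟨i, h1, h2, h3, h4⟩ := ih h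
      exact ⟨i, h1, by omega, h3, h4⟩
    · exact ⟨b, hab, by omega, h, hb⟩

/-- A change from true to false. -/
theorem change_down (P : ℕ → Prop) (a b : ℕ) (hab : a ≤ b) (ha : P a) (hb : ¬ P b) :
    ∃ i, a ≤ i ∧ i < b ∧ P i ∧ ¬ P (i + 1) := by
  obtain ⟨i, h1, h2, h3, h4⟩ := change_up (fun i => ¬ P i) a b hab (by simpa using ha) hb
  exact ⟨i, h1, h2, by simpa using h3, h4⟩

/-- **ARC.** -/
theorem arc (hSol : StmtSol) (hNxt : StmtNxt) : StmtArc := by
  intro D V E F _ _ _ _ M O A hconn hne d hd e he hR hdA hdA' heA heA' hhf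
  obtain ⟨N1, N2, N3, -⟩ := hNxt D V E F M O
  set f := nxt M O with hfd
  set B := bd M O with hBd
  have hBO : ∀ x ∈ B, M.vt x ∉ O := by
    intro x hx
    have := (Finset.mem_filter.mp hx).2
    exact this.2.1
  have hmem : ∀ i, f^[i] d ∈ B := by
    intro i
    induction i with
    | zero => exact hd
    | succ i ih =>
      rw [Function.iterate_succ_apply']
      exact N2 _ ih
  have hcancel : ∀ k i, f^[i + k] d = f^[k] d → f^[i] d = d := by
    intro k
    induction k with
    | zero => intro i h; simpa using h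
    | succ k ih =>
      intro i h
      apply ih
      have h1 : f (f^[i + k] d) = f (f^[k] d) := by
        rw [← Function.iterate_succ_apply' f, ← Function.iterate_succ_apply' f]
        exact h
      exact N3 _ _ (hBO _ (hmem _)) (hBO _ (hmem _)) h1
  have hper : ∃ L, 0 < L ∧ f^[L] d = d := by
    obtain ⟨i, j, hij, h⟩ := Finite.exists_ne_map_eq_of_infinite (fun i : ℕ => f^[i] d)
    change f^[i] d = f^[j] d at h
    rcases lt_or_gt_of_ne hij with hlt | hlt
    · refine ⟨j - i, by omega, hcancel i (j - i) ?_⟩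
      rw [Nat.sub_add_cancel hlt.le]
      exact h.symm
    · refine ⟨i - j, by omega, hcancel j (i - j) ?_⟩
      rw [Nat.sub_add_cancel hlt.le]
      exact h
  let L := Nat.find hper
  have hL0 : 0 < L := (Nat.find_spec hper).1
  have hLd : f^[L] d = d := (Nat.find_spec hper).2
  have hLmin : ∀ i, 0 < i → i < L → f^[i] d ≠ d := by
    intro i h1 h2 h3
    exact Nat.find_min hper h2 ⟨h1, h3⟩
  have hinj : ∀ i j, i < j → j < L → f^[i] d ≠ f^[j] d := by
    intro i j h1 h2 h3
    have h4 : f^[j - i] d = d := by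
      apply hcancel i (j - i)
      rw [Nat.sub_add_cancel h1.le]
      exact h3.symm
    exact hLmin (j - i) (by omega) (by omega) h4
  have hmod : ∀ n, f^[n % L] d = f^[n] d := by
    intro n
    have h1 : ∀ q, f^[L * q] d = d := by
      intro q
      induction q with
      | zero => simp
      | succ q ih => rw [Nat.mul_succ, Function.iterate_add_apply, hLd, ih]
    conv_rhs => rw [← Nat.mod_add_div n L, Function.iterate_add_apply, h1]
  obtain ⟨n0, hn0⟩ := hSol D V E F M O hconn hne d hd e he hR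
  let n := n0 % L
  have hnL : n < L := Nat.mod_lt _ hL0
  have hn : f^[n] d = e := by rw [hmod]; exact hn0
  -- the indicator
  let P : ℕ → Prop := fun i => M.vt (f^[i] d) ∈ A
  have htg : ∀ i, tg M (f^[i] d) ∈ A ↔ P (i + 1) := by
    intro i
    have h1 := (N1 (f^[i] d) (hBO _ (hmem i))).1
    change tg M (f^[i] d) ∈ A ↔ M.vt (f^[i + 1] d) ∈ A
    rw [Function.iterate_succ_apply', h1]
  have p0 : ¬ P 0 := hdA
  have p1 : ¬ P 1 := by
    have := (htg 0).not.mp (by simpa using hdA')
    exact this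
  have pn : ¬ P n := by
    change M.vt (f^[n] d) ∉ A
    rw [hn]; exact heA
  have pn1 : ¬ P (n + 1) := by
    apply (htg n).not.mp
    rw [hn]; exact heA'
  have pL : ¬ P L := by
    change M.vt (f^[L] d) ∉ A
    rw [hLd]; exact hdA
  have pL1 : ¬ P (L + 1) := by
    apply (htg L).not.mp
    rw [hLd]; exact hdA'
  by_cases harc1 : ∀ j ≤ n + 1, ¬ P j
  · refine ⟨d, e, Or.inl ⟨rfl, rfl⟩, n, hn, ?_⟩
    intro i hi
    refine ⟨hmem i, harc1 i (by omega), ?_⟩
    rw [htg]
    exact harc1 (i + 1) (by omega)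
  by_cases harc2 : ∀ j, n ≤ j → j ≤ L + 1 → ¬ P j
  · have key : ∀ i, f^[i] e = f^[i + n] d := by
      intro i
      rw [Function.iterate_add_apply, hn]
    refine ⟨e, d, Or.inr ⟨rfl, rfl⟩, L - n, ?_, ?_⟩
    · rw [key, Nat.sub_add_cancel hnL.le, hLd]
    · intro i hi
      rw [key]
      refine ⟨hmem _, harc2 _ (by omega) (by omega), ?_⟩
      rw [htg]
      exact harc2 _ (by omega) (by omega)
  exfalso
  push Not at harc1 harc2
  obtain ⟨j, hj, hPj⟩ := harc1
  obtain ⟨k, hk1, hk2, hPk⟩ := harc2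
  have hjn : j < n := by
    rcases lt_trichotomy j n with h | h | h
    · exact h
    · exact absurd hPj (h ▸ pn)
    · have : j = n + 1 := by omega
      exact absurd hPj (this ▸ pn1)
  have hkL : k < L := by
    rcases lt_trichotomy k L with h | h | h
    · exact h
    · exact absurd hPk (h ▸ pL)
    · have : k = L + 1 := by omega
      exact absurd hPk (this ▸ pL1)
  obtain ⟨i1, a1, b1, c1, d1⟩ := change_up P 0 j (Nat.zero_le _) p0 hPj
  obtain ⟨i2, a2, b2, c2, d2⟩ := change_down P j n hjn.le hPj pn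
  obtain ⟨i3, a3, b3, c3, d3⟩ := change_up P n k hk1 pn hPk
  obtain ⟨i4, a4, b4, c4, d4⟩ := change_down P k L hkL.le hPk pL
  have hin : ∀ i, (¬ P i ∧ P (i + 1)) ∨ (P i ∧ ¬ P (i + 1)) →
      f^[i] d ∈ B.filter fun x => ¬ (M.vt x ∈ A ↔ tg M x ∈ A) := by
    intro i hi
    refine Finset.mem_filter.mpr ⟨hmem i, ?_⟩
    rw [htg]
    change ¬ (P i ↔ P (i + 1))
    tauto
  have hsub : ({f^[i1] d, f^[i2] d, f^[i3] d, f^[i4] d} : Finset D) ⊆
      B.filter fun x => ¬ (M.vt x ∈ A ↔ tg M x ∈ A) := by
    intro x hx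
    simp only [Finset.mem_insert, Finset.mem_singleton] at hx
    rcases hx with rfl | rfl | rfl | rfl
    · exact hin i1 (Or.inl ⟨c1, d1⟩)
    · exact hin i2 (Or.inr ⟨c2, d2⟩)
    · exact hin i3 (Or.inl ⟨c3, d3⟩)
    · exact hin i4 (Or.inr ⟨c4, d4⟩)
  have hcard : ({f^[i1] d, f^[i2] d, f^[i3] d, f^[i4] d} : Finset D).card = 4 := by
    rw [Finset.card_insert_of_notMem, Finset.card_insert_of_notMem,
      Finset.card_insert_of_notMem, Finset.card_singleton]
    · simp only [Finset.mem_singleton]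
      exact hinj i3 i4 (by omega) (by omega)
    · simp only [Finset.mem_insert, Finset.mem_singleton, not_or]
      exact ⟨hinj i2 i3 (by omega) (by omega), hinj i2 i4 (by omega) (by omega)⟩
    · simp only [Finset.mem_insert, Finset.mem_singleton, not_or]
      exact ⟨hinj i1 i2 (by omega) (by omega), hinj i1 i3 (by omega) (by omega),
        hinj i1 i4 (by omega) (by omega)⟩
  have h4 := Finset.card_le_card hsub
  rw [hcard] at h4
  exact absurd (le_trans h4 hhf) (by norm_num)

end Pool.Agent.Helper82.UB
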